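import Pool.Agent.H.MP_fa645e_co.Core

namespace Pool.Agent.Results.MP_fa645e_co.Finite

theorem result (V : Type) (D : Digraph V) (_hloop : ∀ v, ¬ D.Adj v v)
    (_hdigon : ∀ u v, D.Adj u v → ¬ D.Adj v u) (hfin : ∀ v, {w | D.Adj v w}.Finite)
    (γ : ℝ) (hγ : γ ≤ 1)
    (hbad : ∀ v, (({w | w ≠ v ∧ ¬ D.Adj v w ∧ ∃ u, D.Adj v u ∧ D.Adj u w}.ncard : ℕ) : ℝ) <
      γ * ({w | D.Adj v w}.ncard : ℕ)) (x : V) :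
    ∃ X : Finset V, x ∈ X ∧
      2 * X.card ≤ {w | D.Adj x w}.ncard * ({w | D.Adj x w}.ncard + 1) + 2 ∧
      ∀ v ∈ X,
        (({w | w ∈ X ∧ w ≠ v ∧ ¬ D.Adj v w ∧ ∃ u ∈ X, D.Adj v u ∧ D.Adj u w}.ncard : ℕ) : ℝ) <
          γ * ({w | w ∈ X ∧ D.Adj v w}.ncard : ℕ) := by
  rcases Pool.Agent.H.MP_fa645e_co.main (A := D.Adj) hfin hγ x with ⟨g, -, h⟩ | h
  · exact absurd (hbad g) (not_lt.2 h)
  · exact h

end Pool.Agent.Results.MP_fa645e_co.Finite
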